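import Pool.Agent.L0h15.MT.Fwd

/-!
# The existence of a motivic t-structure in terms of Chow motives, in all characteristics

`C` is a category with the known properties of the category of constructible motives over a field
`k` (of any characteristic) with rational coefficients: a rigid idempotent complete tensor
triangulated category, with realisations `R l`, with `End(𝟙) = ℚ`, and generated by a class of Chow
motives (`IsChow`).

A motivic t-structure (non-degenerate, compatible with the tensor product, with all `R l` t-exact)
exists on `C` if and only if

* every Chow motive is a finite direct sum of Chow motives `P_i` that are pure of degree `i` (their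
  cohomology vanishes in the degrees `≠ i`),
* on the Chow motives which are pure of degree zero, rational and numerical equivalence agree,
* the motivic cohomology `Hom(𝟙, P⟦n⟧)` of a Chow motive `P` pure of degree `i` vanishes for `n < i`,
  and for `n = i` if `i ≠ 0`.
-/

set_option autoImplicit false

open CategoryTheory Limits MonoidalCategory Pretriangulated Triangulated

universe v u w

namespace Pool.Agent.Results.MP_6d0ce9_ag.ChowCriterion

open Pool.Agent.Y116.MT Pool.Agent.L0h15.MT

/-- A motivic t-structure exists if and only if Chow motives have a Künneth decomposition into pure
Chow motives, rational and numerical equivalence agree on pure Chow motives of degree zero, and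
the motivic cohomology of pure Chow motives of degree `i` vanishes in the degrees `n < i` (and
`n = i` if `i ≠ 0`). -/
theorem result {C : Type u} [Category.{v} C] [Preadditive C] [HasZeroObject C] [HasShift C ℤ]
    [∀ n : ℤ, (shiftFunctor C n).Additive] [Pretriangulated C] [IsTriangulated C]
    [MonoidalCategory C] [MonoidalPreadditive C] [SymmetricCategory C] [TensorTriangulated C]
    [RightRigidCategory C] [Linear ℚ C] [IsIdempotentComplete C]
    (hU : ∀ c : 𝟙_ C ⟶ 𝟙_ C, ∃ q : ℚ, c = q • 𝟙 _)
    {Λ : Type*} [Nonempty Λ] {E : Λ → Type w} [∀ l, Field (E l)] [∀ l, CharZero (E l)]
    {R : ∀ l, Realisation C (E l)} {Chow : ObjectProperty C} {T : C} (h : IsChow Chow T R) :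
    (∃ t : TStructure C, IsMotivic t R) ↔
      KunnethDecomposition Chow R ∧ NumericalEquivalence Chow R ∧ Vanishing Chow R :=
  motivic_iff h hU

end Pool.Agent.Results.MP_6d0ce9_ag.ChowCriterion
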