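import Pool.Agent.L0h15.MT.Fin

/-!
# Motivic t-structures over all fields of positive characteristic

`MotSystem p E l` consists of the categories `M k` of constructible motives over all fields `k` of
characteristic `p` with their realisations and the properties used of extensions of the base field
(see the file of the definitions). Let `k₀` be a finite field of characteristic `p`, with the
Frobenius `Fr` of `M k₀` (an endomorphism of the identity functor with the properties that follow
from Deligne's theorem on the weights).

The following are equivalent:

* over ALL fields of characteristic `p` there is a motivic t-structure (non-degenerate, compatible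
  with the tensor product and such that all `ℓ`-adic realisations are t-exact);
* over SOME field of characteristic `p` there is a motivic t-structure;
* over the finite field `k₀` rational and numerical equivalence agree and Parshin's conjecture holds
  (both for smooth projective varieties, with rational coefficients).
-/

set_option autoImplicit false

universe v u w

namespace Pool.Agent.Results.MP_6d0ce9_ag.FiniteFields

open Pool.Agent.L0h15.MT

/-- Let `k₀` be a finite field of characteristic `p`. Motivic t-structures exist over all fields of
characteristic `p` if and only if, over `k₀`, rational and numerical equivalence agree and Parshin's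
conjecture holds; and a motivic t-structure exists over some field of characteristic `p` if and only
if this is so. -/
theorem result {p : ℕ} {Λ : Type} {E : Λ → Type w} [∀ l, Field (E l)] [∀ l, CharZero (E l)]
    {l : Λ} (S : MotSystem.{v, u} p E l) (k₀ : Type) [Field k₀] [CharP k₀ p] [Finite k₀]
    (Fr : Frob (S.M k₀)) :
    ((∀ (k : Type) [Field k] [CharP k p], S.Exists k) ↔
      (S.M k₀).RatNum ∧ (S.M k₀).Parshin) ∧
    ((∃ (k : Type) (_ : Field k) (_ : CharP k p), S.Exists k) ↔
      (S.M k₀).RatNum ∧ (S.M k₀).Parshin) := by
  rw [← fin_iff Fr, ← S.exists_iff_splits k₀]
  refine ⟨⟨fun h => h k₀, fun h k _ _ => (S.exists_iff k₀ k).1 h⟩, ⟨?_, fun h => ⟨k₀, _, _, h⟩⟩⟩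
  rintro ⟨k, _, _, h⟩
  exact (S.exists_iff k k₀).1 h

end Pool.Agent.Results.MP_6d0ce9_ag.FiniteFields
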