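import Pool.Agent.L0h15.MT.Trf

/-!
# The existence of the motivic t-structure depends only on the characteristic

`MotSystem p E l` consists of the categories `M k` of constructible motives over all fields `k` of
characteristic `p` (bundled categories `Mot`, with the `ℓ`-adic realisations `R k l'` for all
indices `l'`; `l` is one fixed index), with the properties used of extensions of the base field:

* for an algebraic closure `Ω` of `k`: `AlgebraicExt`, in terms of finite extensions `FiniteExt`
  (pull-back, direct image, traces, continuity);
* for an extension of algebraically closed fields `k` and `Ω`: `ClosedExt`, in terms of families of
  motives over smooth connected varieties `U` over `k` (`FamilyData`, `IsFamily`: the adjunction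
  between pull-back and direct image along `U ⟶ Spec k`, the Leray spectral sequence of `U`, and for
  Chow motives over `U` Deligne's theorems on semisimplicity, on the fixed part and on the
  degeneration of the Leray spectral sequence);
* the independence of `ℓ` of the Betti numbers of smooth projective varieties (`BettiIndependent`,
  Deligne).

`S.Exists k` says that over `k` there is a t-structure that is non-degenerate, compatible with the
tensor product and such that all realisations are t-exact.

The theorem: for fields `k` and `k'` of the same characteristic such a t-structure exists over `k`
if and only if it exists over `k'`. So the motivic t-structure exists over all fields if and only if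
it exists over all prime fields.
-/

set_option autoImplicit false

universe v u w

namespace Pool.Agent.Results.MP_6d0ce9_ag.OneField

open Pool.Agent.L0h15.MT

/-- For two fields `k`, `k'` of the same characteristic the motivic t-structure exists over `k` if
and only if it exists over `k'`. -/
theorem result {p : ℕ} {Λ : Type} {E : Λ → Type w} [∀ l, Field (E l)] [∀ l, CharZero (E l)]
    {l : Λ} (S : MotSystem.{v, u} p E l) (k k' : Type) [Field k] [Field k'] [CharP k p]
    [CharP k' p] : S.Exists k ↔ S.Exists k' :=
  S.exists_iff k k'

end Pool.Agent.Results.MP_6d0ce9_ag.OneField
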