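import Pool.Agent.L0h15.MT.Ind

/-!
# One prime suffices for the motivic t-structure

`C` is a category with the known properties of the category of constructible motives over a field
`k` with rational coefficients: a rigid idempotent complete tensor triangulated category with
`End(𝟙) = ℚ`, generated by a class of Chow motives (`IsChow`), with realisations `R l` for which the
Betti numbers of smooth projective varieties do not depend on `l` (`BettiIndependent`, a theorem of
Deligne).

Let `t` be a t-structure on `C` that is non-degenerate and compatible with the tensor product, and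
such that `R l` is t-exact for ONE `l`. Then `R l` is t-exact for all `l`; `t` is the unique
t-structure of this kind, whatever the prime is; and the traces of all endomorphisms of all
constructible motives `X` on the cohomology groups `H^n(R l X)` are rational numbers independent of
`l`, in particular the dimensions of these groups.
-/

set_option autoImplicit false

open CategoryTheory Limits MonoidalCategory Pretriangulated Triangulated

universe v u w

namespace Pool.Agent.Results.MP_6d0ce9_ag.OnePrime

open Pool.Agent.Y116.MT Pool.Agent.L0h15.MT

/-- Let `t` be non-degenerate, compatible with the tensor product and such that one realisation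
`R l` is t-exact. (1) All realisations are t-exact. (2) If `t'` is such a t-structure for a
possibly different `l'`, then `t'` and `t` are equal. (3) If there is such a t-structure, then for
every endomorphism `f` of an object `X` the trace of `f` on the cohomology `H^n(R l X)` is a
rational number which does not depend on `l`. -/
theorem result {C : Type u} [Category.{v} C] [Preadditive C] [HasZeroObject C] [HasShift C ℤ]
    [∀ n : ℤ, (shiftFunctor C n).Additive] [Pretriangulated C] [IsTriangulated C]
    [MonoidalCategory C] [MonoidalPreadditive C] [SymmetricCategory C] [TensorTriangulated C]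
    [RightRigidCategory C] [Linear ℚ C] [IsIdempotentComplete C]
    (hU : ∀ c : 𝟙_ C ⟶ 𝟙_ C, ∃ q : ℚ, c = q • 𝟙 _)
    {Λ : Type*} {E : Λ → Type w} [∀ l, Field (E l)] [∀ l, CharZero (E l)]
    {R : ∀ l, Realisation C (E l)} {Chow : ObjectProperty C} {T : C} (h : IsChow Chow T R)
    (hB : BettiIndependent Chow T R) :
    (∀ (t : TStructure C) (l : Λ), MotivicAt t R l → IsMotivic t R) ∧
    (∀ (t t' : TStructure C) (l l' : Λ), MotivicAt t R l → MotivicAt t' R l' → SameT t t') ∧
    ((∃ (t : TStructure C) (l : Λ), MotivicAt t R l) → TraceIndependent R) := by
  have h1 : ∀ (t : TStructure C) (l : Λ), MotivicAt t R l →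
      OneExact t (R l) := fun t l hM =>
    IsMotivic.oneExact hM (hid_of hU ⟨E l, inferInstance, ⟨R l⟩⟩) ()
  have h2 : ∀ (t : TStructure C) (l : Λ), MotivicAt t R l → IsMotivic t R :=
    fun t l hM => motivic_of_one h hB hU l (h1 t l hM)
  refine ⟨h2, ?_, ?_⟩
  · intro t t' l l' hM hM' X n
    have H := h1 t l hM
    have H' := IsMotivic.oneExact (h2 t' l' hM') (hid_of hU ⟨E l, inferInstance, ⟨R l⟩⟩) l
    exact ⟨⟨fun hX => (H'.isLE fun i hi => H.exact.isLE ⟨hX⟩ i hi).le,
        fun hX => (H.isLE fun i hi => H'.exact.isLE ⟨hX⟩ i hi).le⟩,
      ⟨fun hX => (H'.isGE fun i hi => H.exact.isGE ⟨hX⟩ i hi).ge,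
        fun hX => (H.isGE fun i hi => H'.exact.isGE ⟨hX⟩ i hi).ge⟩⟩
  · rintro ⟨t, l, hM⟩ X f n
    exact trace_independent hU (h2 t l hM) f n

end Pool.Agent.Results.MP_6d0ce9_ag.OnePrime
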